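import Pool.Agent.K1H54.LO.Defs
import Pool.Agent.Z864.S2.Uni6

/-!
The energy of a family of coefficients whose pairings with the test families are differentiable.
-/

open Set Filter Topology MeasureTheory

set_option autoImplicit false

namespace Pool.Agent.K1H17.UN

open Pool.Agent.Y5 Pool.Agent.Y5.D Pool.Agent.Y5.E
open Pool.Agent.Y301.G
open Pool.Agent.Y248.ND (bil_anti vec_neg one_le_vec)
open Pool.Agent.Z864.S2 (hasDerivWithinAt_series)

open Classical in
/-- the test family with `x / 2` at `k` and `- x / 2` at `-k` -/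
noncomputable def tst (k : Z3) (x : E3) : Fam := fun l =>
  (if l = k then (1 / 2 : ℝ) • x else 0) - (if l = -k then (1 / 2 : ℝ) • x else 0)

lemma tst_ot {k : Z3} {x : E3} (h : inner ℝ (vec k) x = 0) : OT (tst k x) := by
  classical
  refine ⟨fun l => ?_, fun l => ?_⟩
  · unfold tst
    have h1 : (-l = k) ↔ (l = -k) := neg_eq_iff_eq_neg
    have h2 : (-l = -k) ↔ (l = k) := neg_inj
    rw [if_congr h1 rfl rfl, if_congr h2 rfl rfl]
    abel
  · unfold tst
    rw [inner_sub_right]
    have h1 : inner ℝ (vec l) (if l = k then (1 / 2 : ℝ) • x else 0) = 0 := by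
      split_ifs with h1
      · rw [h1, inner_smul_right, h, mul_zero]
      · exact inner_zero_right _
    have h2 : inner ℝ (vec l) (if l = -k then (1 / 2 : ℝ) • x else 0) = 0 := by
      split_ifs with h1
      · rw [h1, vec_neg, inner_smul_right, inner_neg_left, h, neg_zero, mul_zero]
      · exact inner_zero_right _
    rw [h1, h2, sub_zero]

lemma tst_fin (k : Z3) (x : E3) : {l | tst k x l ≠ 0}.Finite := by
  classical
  refine ((Set.finite_singleton k).union (Set.finite_singleton (-k))).subset ?_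
  intro l hl
  by_contra hc
  simp only [Set.mem_union, Set.mem_singleton_iff, not_or] at hc
  apply hl
  unfold tst
  rw [if_neg hc.1, if_neg hc.2, sub_zero]

lemma pair_tst (Q : Fam) (k : Z3) (x : E3) :
    pair Q (tst k x) = 1 / 2 * inner ℝ (Q k - Q (-k)) x := by
  classical
  unfold pair
  have h : ∀ l, (inner ℝ (Q l) (tst k x l) : ℝ) =
      (if l = k then 1 / 2 * inner ℝ (Q k) x else 0) -
      (if l = -k then 1 / 2 * inner ℝ (Q (-k)) x else 0) := by
    intro l
    unfold tst
    rw [inner_sub_right]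
    congr 1
    · split_ifs with h1
      · rw [h1, inner_smul_right]
      · exact inner_zero_right _
    · split_ifs with h1
      · rw [h1, inner_smul_right]
      · exact inner_zero_right _
  rw [tsum_congr h]
  have s1 : Summable (fun l : Z3 => if l = k then 1 / 2 * inner ℝ (Q k) x else 0) :=
    (hasSum_ite_eq k _).summable
  have s2 : Summable (fun l : Z3 => if l = -k then 1 / 2 * inner ℝ (Q (-k)) x else 0) :=
    (hasSum_ite_eq (-k) _).summable
  rw [s1.tsum_sub s2, tsum_ite_eq, tsum_ite_eq, inner_sub_left]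
  ring

/-- the projection to the plane orthogonal to `k` -/
noncomputable def pr (k : Z3) (y : E3) : E3 := y - (inner ℝ (vec k) y / ‖vec k‖ ^ 2) • vec k

lemma pr_orth (k : Z3) (y : E3) : inner ℝ (vec k) (pr k y) = 0 := by
  unfold pr
  rw [inner_sub_right, inner_smul_right, real_inner_self_eq_norm_sq]
  by_cases h : ‖vec k‖ ^ 2 = 0
  · have h1 : vec k = 0 := norm_eq_zero.1 (pow_eq_zero_iff two_ne_zero |>.1 h)
    rw [h1]
    simp
  · rw [div_mul_cancel₀ _ h, sub_self]

lemma inner_pr {k : Z3} {D : E3} (hD : inner ℝ (vec k) D = 0) (y : E3) :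
    (inner ℝ D (pr k y) : ℝ) = inner ℝ D y := by
  unfold pr
  rw [inner_sub_right, inner_smul_right, real_inner_comm (vec k) D, hD, mul_zero, sub_zero]

lemma pair_tst_pr {D : Fam} (hD : OT D) (k : Z3) (y : E3) :
    pair D (tst k (pr k y)) = inner ℝ (D k) y := by
  rw [pair_tst, hD.odd k, sub_neg_eq_add, inner_add_left, inner_pr (hD.tan k)]
  ring

/-- the basis vectors -/
noncomputable def ee (i : Fin 3) : E3 := EuclideanSpace.single i 1

lemma inner_ee (x : E3) (i : Fin 3) : (inner ℝ x (ee i) : ℝ) = x i := by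
  unfold ee
  rw [real_inner_comm, EuclideanSpace.inner_single_left]
  simp

lemma nsq (x : E3) : ‖x‖ ^ 2 = ∑ i, (inner ℝ x (ee i) : ℝ) ^ 2 := by
  rw [EuclideanSpace.norm_sq_eq]
  refine Finset.sum_congr rfl fun i _ => ?_
  rw [inner_ee, Real.norm_eq_abs, sq_abs]

lemma inner_eq (x y : E3) : (inner ℝ x y : ℝ) = ∑ i, (inner ℝ x (ee i) : ℝ) * inner ℝ y (ee i) := by
  rw [PiLp.inner_apply]
  refine Finset.sum_congr rfl fun i _ => ?_
  rw [inner_ee, inner_ee]
  simp [mul_comm]

lemma sum_pr {k : Z3} {D : E3} (hD : inner ℝ (vec k) D = 0) (q : E3) :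
    ∑ i, (inner ℝ D (ee i) : ℝ) * inner ℝ q (pr k (ee i)) = inner ℝ q D := by
  have h1 : ∀ i, (inner ℝ q (pr k (ee i)) : ℝ) =
      inner ℝ q (ee i) - inner ℝ (vec k) (ee i) / ‖vec k‖ ^ 2 * inner ℝ q (vec k) := fun i => by
    unfold pr
    rw [inner_sub_right, inner_smul_right]
  have h2 : ∑ i, (inner ℝ D (ee i) : ℝ) * inner ℝ (vec k) (ee i) = 0 := by
    rw [← inner_eq, real_inner_comm, hD]
  calc ∑ i, (inner ℝ D (ee i) : ℝ) * inner ℝ q (pr k (ee i))
      = ∑ i, (inner ℝ D (ee i) : ℝ) * inner ℝ q (ee i) -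
        (∑ i, (inner ℝ D (ee i) : ℝ) * inner ℝ (vec k) (ee i)) *
          (1 / ‖vec k‖ ^ 2 * inner ℝ q (vec k)) := by
        rw [Finset.sum_mul, ← Finset.sum_sub_distrib]
        refine Finset.sum_congr rfl fun i _ => ?_
        rw [h1]
        ring
    _ = inner ℝ q D := by
        rw [h2, zero_mul, sub_zero, ← inner_eq, real_inner_comm]

/-- The energy: if the pairings with the finitely supported test families are differentiable, with
derivative `pair (Q t) Z`, then the energy is differentiable. -/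
theorem en {D Q : ℝ → Fam} {T' : ℝ} {u : Z3 → ℝ} (hu : Summable u)
    (hD : ∀ t ∈ Icc 0 T', OT (D t))
    (hder : ∀ Z, OT Z → {k | Z k ≠ 0}.Finite → ∀ t ∈ Icc 0 T',
      HasDerivWithinAt (fun τ => pair (D τ) Z) (pair (Q t) Z) (Icc 0 T') t)
    (hb : ∀ t ∈ Icc 0 T', ∀ k, ‖Q t k‖ * ‖D t k‖ ≤ u k)
    (hs : ∀ t ∈ Icc 0 T', Summable (fun k => ‖D t k‖ ^ 2)) {t : ℝ} (ht : t ∈ Icc 0 T') :
    HasDerivWithinAt (fun τ => pair (D τ) (D τ)) (2 * pair (Q t) (D t)) (Icc 0 T') t := by
  -- the derivative of one coefficient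
  have h1 : ∀ k, ∀ s ∈ Icc 0 T', HasDerivWithinAt (fun τ => ‖D τ k‖ ^ 2)
      (inner ℝ (Q s k) (D s k) + inner ℝ (Q s (-k)) (D s (-k))) (Icc 0 T') s := by
    intro k s hs'
    have h2 : ∀ i, HasDerivWithinAt (fun τ => pair (D τ) (tst k (pr k (ee i))))
        (pair (Q s) (tst k (pr k (ee i)))) (Icc 0 T') s := fun i =>
      hder _ (tst_ot (pr_orth k _)) (tst_fin _ _) s hs'
    have h3 : HasDerivWithinAt
        (fun τ => ∑ i, pair (D τ) (tst k (pr k (ee i))) * pair (D τ) (tst k (pr k (ee i))))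
        (∑ i, (pair (Q s) (tst k (pr k (ee i))) * pair (D s) (tst k (pr k (ee i))) +
          pair (D s) (tst k (pr k (ee i))) * pair (Q s) (tst k (pr k (ee i))))) (Icc 0 T') s := by
      have := HasDerivWithinAt.fun_sum (u := Finset.univ) (fun i _ => (h2 i).mul (h2 i))
      exact this
    have h4 : ∀ τ ∈ Icc 0 T', ‖D τ k‖ ^ 2 =
        ∑ i, pair (D τ) (tst k (pr k (ee i))) * pair (D τ) (tst k (pr k (ee i))) := by
      intro τ hτ
      rw [nsq]
      refine Finset.sum_congr rfl fun i _ => ?_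
      rw [pair_tst_pr (hD τ hτ)]
      ring
    have h5 : ∑ i, (pair (Q s) (tst k (pr k (ee i))) * pair (D s) (tst k (pr k (ee i))) +
          pair (D s) (tst k (pr k (ee i))) * pair (Q s) (tst k (pr k (ee i)))) =
        inner ℝ (Q s k) (D s k) + inner ℝ (Q s (-k)) (D s (-k)) := by
      have h6 := sum_pr ((hD s hs').tan k) (Q s k - Q s (-k))
      calc _ = ∑ i, (inner ℝ (D s k) (ee i) : ℝ) *
            inner ℝ (Q s k - Q s (-k)) (pr k (ee i)) := by
            refine Finset.sum_congr rfl fun i _ => ?_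
            rw [pair_tst_pr (hD s hs'), pair_tst]
            ring
        _ = _ := by
            rw [h6, inner_sub_left, (hD s hs').odd k, inner_neg_right]
            ring
    rw [h5] at h3
    exact h3.congr (fun τ hτ => h4 τ hτ) (h4 s hs')
  have hneg : ∀ f : Z3 → ℝ, Summable f → Summable (fun k => f (-k)) := fun f hf =>
    ((Equiv.neg Z3).summable_iff (f := f)).2 hf
  have h2 : HasDerivWithinAt (fun τ => ∑' k, ‖D τ k‖ ^ 2)
      (∑' k, ((inner ℝ (Q t k) (D t k) : ℝ) + inner ℝ (Q t (-k)) (D t (-k)))) (Icc 0 T') t := by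
    refine hasDerivWithinAt_series (u := fun k => u k + u (-k)) ht (hu.add (hneg u hu)) h1 ?_ hs
    intro k s hs'
    refine (norm_add_le _ _).trans (add_le_add ?_ ?_)
    · exact (norm_inner_le_norm _ _).trans (hb s hs' k)
    · exact (norm_inner_le_norm _ _).trans (hb s hs' (-k))
  have h3 : Summable (fun k => (inner ℝ (Q t k) (D t k) : ℝ)) :=
    Summable.of_norm_bounded hu (fun k => (norm_inner_le_norm _ _).trans (hb t ht k))
  have h4 : ∑' k, ((inner ℝ (Q t k) (D t k) : ℝ) + inner ℝ (Q t (-k)) (D t (-k))) =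
      2 * pair (Q t) (D t) := by
    have h5 : ∑' k, (inner ℝ (Q t (-k)) (D t (-k)) : ℝ) = ∑' k, (inner ℝ (Q t k) (D t k) : ℝ) :=
      (Equiv.neg Z3).tsum_eq (fun k => (inner ℝ (Q t k) (D t k) : ℝ))
    rw [h3.tsum_add (hneg _ h3), h5]
    unfold pair
    ring
  rw [h4] at h2
  have h5 : ∀ τ, pair (D τ) (D τ) = ∑' k, ‖D τ k‖ ^ 2 := fun τ => by
    unfold pair
    exact tsum_congr fun k => real_inner_self_eq_norm_sq _
  exact h2.congr (fun τ _ => h5 τ) (h5 t)

end Pool.Agent.K1H17.UN
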