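import Pool.Agent.K1H54.LO.Defs2

/-!
Choice of the boxes and the parameters.
-/

open Set Filter Topology

set_option autoImplicit false

namespace Pool.Agent.K1H17.UN

open Pool.Agent.Y5 Pool.Agent.Y5.D Pool.Agent.K1H54.LO

/-- a box of frequencies -/
def bx (a b c : Finset ℤ) : Finset Z3 := Fintype.piFinset ![a, b, c]

theorem mem_bx {a b c : Finset ℤ} {k : Z3} : k ∈ bx a b c ↔ k 0 ∈ a ∧ k 1 ∈ b ∧ k 2 ∈ c := by
  unfold bx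
  rw [Fintype.mem_piFinset]
  constructor
  · intro h
    exact ⟨h 0, h 1, h 2⟩
  · rintro ⟨h0, h1, h2⟩ i
    fin_cases i
    · exact h0
    · exact h1
    · exact h2

theorem card_bx (a b c : Finset ℤ) : (bx a b c).card = a.card * b.card * c.card := by
  unfold bx
  rw [Fintype.card_piFinset, Fin.prod_univ_three]
  rfl

theorem norm_vec_sq (k : Z3) : ‖vec k‖ ^ 2 = (k 0 : ℝ) ^ 2 + (k 1 : ℝ) ^ 2 + (k 2 : ℝ) ^ 2 := by
  unfold vec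
  rw [EuclideanSpace.norm_sq_eq, Fin.sum_univ_three]
  simp only [Real.norm_eq_abs, sq_abs]

theorem inner_vec (k : Z3) (y : E3) :
    inner ℝ (vec k) y = (k 0 : ℝ) * y 0 + (k 1 : ℝ) * y 1 + (k 2 : ℝ) * y 2 := by
  unfold vec
  rw [PiLp.inner_apply, Fin.sum_univ_three]
  simp only [RCLike.inner_apply, conj_trivial]
  ring

/-- the norm of `pe k` -/
theorem norm_pe_sq {k : Z3} (hk : ‖vec k‖ ≠ 0) :
    ‖pe k‖ ^ 2 = 1 - (k 2 : ℝ) ^ 2 / ‖vec k‖ ^ 2 := by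
  have h1 := norm_vec_sq k
  have h0 : ‖vec k‖ ^ 2 ≠ 0 := pow_ne_zero _ hk
  have h2 : ‖pe k‖ ^ 2 = (((k 2 : ℝ) / ‖vec k‖ ^ 2) * (k 0 : ℝ)) ^ 2 +
      (((k 2 : ℝ) / ‖vec k‖ ^ 2) * (k 1 : ℝ)) ^ 2 +
      (1 - ((k 2 : ℝ) / ‖vec k‖ ^ 2) * (k 2 : ℝ)) ^ 2 := by
    unfold pe
    rw [EuclideanSpace.norm_sq_eq, Fin.sum_univ_three]
    simp only [Real.norm_eq_abs, sq_abs]
    simp [vec]
  rw [h2]
  generalize hX : ‖vec k‖ ^ 2 = X at *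
  field_simp
  rw [h1]
  ring

/-- the properties of the boxes -/
structure BX (N L S : ℕ) : Prop where
  L1 : 1 ≤ L
  NL : N = 16 * L
  S1 : 1 ≤ S
  SN : 2 * S ≤ N

section

variable {N L S : ℕ}

/-- the box `A` -/
noncomputable def bA (N L S : ℕ) : Finset Z3 :=
  bx (Finset.Ico (N : ℤ) (N + L)) (Finset.Ico 0 (L : ℤ)) (Finset.Ico 0 (S : ℤ))

/-- the box `B` -/
noncomputable def bB (N L S : ℕ) : Finset Z3 :=
  bx (Finset.Ico (N : ℤ) (N + L)) (Finset.Ico (L : ℤ) (2 * L)) (Finset.Ico 0 (S : ℤ))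

theorem mem_bA {k : Z3} : k ∈ bA N L S ↔ ((N : ℤ) ≤ k 0 ∧ k 0 < N + L) ∧ (0 ≤ k 1 ∧ k 1 < L) ∧
    (0 ≤ k 2 ∧ k 2 < S) := by
  unfold bA
  rw [mem_bx, Finset.mem_Ico, Finset.mem_Ico, Finset.mem_Ico]

theorem mem_bB {k : Z3} : k ∈ bB N L S ↔ ((N : ℤ) ≤ k 0 ∧ k 0 < N + L) ∧
    ((L : ℤ) ≤ k 1 ∧ k 1 < 2 * L) ∧ (0 ≤ k 2 ∧ k 2 < S) := by
  unfold bB
  rw [mem_bx, Finset.mem_Ico, Finset.mem_Ico, Finset.mem_Ico]

theorem mem_AB {k : Z3} (h : k ∈ bA N L S ∪ bB N L S) : ((N : ℤ) ≤ k 0 ∧ k 0 < N + L) ∧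
    (0 ≤ k 1 ∧ k 1 < 2 * L) ∧ (0 ≤ k 2 ∧ k 2 < S) := by
  rw [Finset.mem_union, mem_bA, mem_bB] at h
  omega

theorem card_bA : (bA N L S).card = L * L * S := by
  unfold bA
  rw [card_bx]
  simp

theorem card_bB : (bB N L S).card = L * L * S := by
  unfold bB
  rw [card_bx]
  simp
  left
  omega

theorem disj_AB : Disjoint (bA N L S) (bB N L S) := by
  rw [Finset.disjoint_left]
  intro k h1 h2
  rw [mem_bA] at h1
  rw [mem_bB] at h2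
  omega

theorem BX.norm (H : BX N L S) {k : Z3} (h : k ∈ bA N L S ∪ bB N L S) :
    (N : ℝ) ≤ ‖vec k‖ ∧ ‖vec k‖ ≤ 2 * N := by
  obtain ⟨⟨h1, h2⟩, ⟨h3, h4⟩, h5, h6⟩ := mem_AB h
  have hNL := H.NL
  have hSN := H.SN
  have a1 : (N : ℝ) ≤ k 0 := by exact_mod_cast h1
  have a2 : (k 0 : ℝ) ≤ N + L := by exact_mod_cast h2.le
  have a3 : (0 : ℝ) ≤ k 1 := by exact_mod_cast h3
  have a4 : (k 1 : ℝ) ≤ 2 * L := by exact_mod_cast h4.le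
  have a5 : (0 : ℝ) ≤ k 2 := by exact_mod_cast h5
  have a6 : (k 2 : ℝ) ≤ S := by exact_mod_cast h6.le
  have a7 : (N : ℝ) = 16 * L := by exact_mod_cast hNL
  have a8 : 2 * (S : ℝ) ≤ N := by exact_mod_cast hSN
  have a9 : (0 : ℝ) ≤ L := Nat.cast_nonneg _
  have hq := norm_vec_sq k
  constructor
  · refine le_of_sq_le_sq ?_ (norm_nonneg _)
    rw [hq]
    nlinarith [sq_nonneg (k 1 : ℝ), sq_nonneg (k 2 : ℝ)]
  · refine le_of_sq_le_sq ?_ (by positivity)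
    rw [hq]
    have b1 : (k 0 : ℝ) ^ 2 ≤ (N + L) ^ 2 := by
      refine pow_le_pow_left₀ (by linarith [Nat.cast_nonneg (α := ℝ) N]) a2 2
    have b2 : (k 1 : ℝ) ^ 2 ≤ (2 * L) ^ 2 := pow_le_pow_left₀ a3 a4 2
    have b3 : (k 2 : ℝ) ^ 2 ≤ (N / 2) ^ 2 := pow_le_pow_left₀ a5 (by linarith) 2
    rw [a7] at b1 b3 ⊢
    nlinarith

theorem BX.pe (H : BX N L S) {k : Z3} (h : k ∈ bA N L S ∪ bB N L S) : 1 / 2 ≤ ‖pe k‖ := by
  obtain ⟨h1, -⟩ := H.norm h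
  obtain ⟨-, -, h5, h6⟩ := mem_AB h
  have a5 : (0 : ℝ) ≤ k 2 := by exact_mod_cast h5
  have a6 : (k 2 : ℝ) ≤ S := by exact_mod_cast h6.le
  have a8 : 2 * (S : ℝ) ≤ N := by exact_mod_cast H.SN
  have a9 : (1 : ℝ) ≤ S := by exact_mod_cast H.S1
  have hpos : 0 < ‖vec k‖ := by linarith
  refine le_of_sq_le_sq ?_ (norm_nonneg _)
  rw [norm_pe_sq hpos.ne']
  have h7 : (k 2 : ℝ) ^ 2 / ‖vec k‖ ^ 2 ≤ 1 / 4 := by
    rw [div_le_iff₀ (by positivity)]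
    nlinarith
  linarith

theorem BX.pt (H : BX N L S) : ∃ y : E3, ∀ k ∈ bA N L S,
    9 / 10 ≤ Real.sin (2 * Real.pi * inner ℝ (vec k) y) := by
  have hN0 : (0 : ℝ) < N := by
    have h1 := H.NL
    have h2 := H.L1
    have : 0 < N := by omega
    exact_mod_cast this
  refine ⟨EuclideanSpace.single 0 (1 / (4 * (N : ℝ))), fun k hk => ?_⟩
  obtain ⟨⟨h1, h2⟩, -⟩ := mem_bA.1 hk
  have a1 : (N : ℝ) ≤ k 0 := by exact_mod_cast h1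
  have a2 : (k 0 : ℝ) ≤ N + L := by exact_mod_cast h2.le
  have a7 : (N : ℝ) = 16 * L := by exact_mod_cast H.NL
  rw [inner_vec]
  have e1 : (2 * Real.pi * ((k 0 : ℝ) * (EuclideanSpace.single (0 : Fin 3) (1 / (4 * (N : ℝ))) : E3) 0 +
      (k 1 : ℝ) * (EuclideanSpace.single (0 : Fin 3) (1 / (4 * (N : ℝ))) : E3) 1 +
      (k 2 : ℝ) * (EuclideanSpace.single (0 : Fin 3) (1 / (4 * (N : ℝ))) : E3) 2)) =
      Real.pi / 2 * ((k 0 : ℝ) - N) / N + Real.pi / 2 := by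
    simp
    field_simp
    ring
  rw [e1, Real.sin_add_pi_div_two]
  have hx : |Real.pi / 2 * ((k 0 : ℝ) - N) / N| ≤ 1 / 10 := by
    rw [abs_of_nonneg (by
      have := Real.pi_pos
      have h3 : 0 ≤ (k 0 : ℝ) - N := by linarith
      positivity)]
    rw [div_le_iff₀ hN0]
    have h3 : (k 0 : ℝ) - N ≤ N / 16 := by linarith
    have h4 : 0 ≤ (k 0 : ℝ) - N := by linarith
    have h5 := Real.pi_lt_d2
    have h6 := Real.pi_pos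
    nlinarith
  have h3 := Real.one_sub_sq_div_two_le_cos (x := Real.pi / 2 * ((k 0 : ℝ) - N) / N)
  have h4 : (Real.pi / 2 * ((k 0 : ℝ) - N) / N) ^ 2 ≤ (1 / 10) ^ 2 := by
    rw [← sq_abs]
    exact pow_le_pow_left₀ (abs_nonneg _) hx 2
  linarith

end

end Pool.Agent.K1H17.UN
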