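import Pool.Agent.K1H17.UN.Geo

/-!
Choice of the boxes and the parameters: the theorem.
-/

open Set Filter Topology

set_option autoImplicit false

namespace Pool.Agent.K1H17.UN

open Pool.Agent.Y5 Pool.Agent.Y5.D Pool.Agent.K1H54.LO

/-- the exponents -/
theorem exists_pq {s₀ s₁ : ℝ} (h0 : 2 / 3 < s₀) (h1 : s₀ < 1) (h2 : s₁ < 3 / 2 * s₀ - 1) :
    ∃ p q d : ℕ, 0 < p ∧ p < q ∧ 0 < d ∧ 3 * p = 2 * q + d ∧ (p : ℝ) ≤ s₀ * q ∧
      2 * q * max s₁ 0 < d := by
  have h3 : max (2 / 3) (2 / 3 * (1 + s₁)) < s₀ := max_lt h0 (by linarith)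
  obtain ⟨r, hr1, hr2⟩ := exists_rat_btwn h3
  have hr3 : (2 / 3 : ℝ) < r := lt_of_le_of_lt (le_max_left _ _) hr1
  have hr4 : (2 / 3 : ℝ) * (1 + s₁) < r := lt_of_le_of_lt (le_max_right _ _) hr1
  have hr0 : (0 : ℝ) < r := by linarith
  have hr0' : 0 < r := by exact_mod_cast hr0
  have hnum : 0 < r.num := Rat.num_pos.2 hr0'
  obtain ⟨p, hp⟩ := Int.eq_ofNat_of_zero_le hnum.le
  have hq : 0 < r.den := r.den_pos
  have hrr : (r : ℝ) * r.den = p := by
    have h4 : r * r.den = r.num := Rat.mul_den_eq_num r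
    rw [hp] at h4
    exact_mod_cast h4
  have hq' : (0 : ℝ) < r.den := by exact_mod_cast hq
  have hp0 : 0 < p := by
    have : (0 : ℝ) < p := by rw [← hrr]; positivity
    exact_mod_cast this
  have hpq : p < r.den := by
    have : (p : ℝ) < r.den := by rw [← hrr]; nlinarith
    exact_mod_cast this
  have h3p : 2 * r.den < 3 * p := by
    have : 2 * (r.den : ℝ) < 3 * p := by rw [← hrr]; nlinarith
    exact_mod_cast this
  have hd : ((3 * p - 2 * r.den : ℕ) : ℝ) = 3 * p - 2 * r.den := by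
    rw [Nat.cast_sub h3p.le]
    push_cast
    ring
  refine ⟨p, r.den, 3 * p - 2 * r.den, hp0, hpq, by omega, by omega, ?_, ?_⟩
  · rw [← hrr]
    exact mul_le_mul_of_nonneg_right hr2.le hq'.le
  · rw [hd, ← hrr]
    rcases max_choice s₁ 0 with h | h
    · rw [h]
      nlinarith
    · rw [h]
      nlinarith

/-- large powers -/
theorem exists_big (x : ℝ) (hx : 1 < x) (Y : ℝ) : ∃ n : ℕ, 1 ≤ n ∧ Y ≤ x ^ n := by
  have h := (tendsto_pow_atTop_atTop_of_one_lt hx).eventually_ge_atTop Y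
  obtain ⟨n, hn1, hn2⟩ := ((eventually_ge_atTop 1).and h).exists
  exact ⟨n, hn1, hn2⟩

/-- decay of the norm of the datum -/
theorem exists_decay (C θ η : ℝ) (hθ : 0 < θ) (hη : 0 < η) :
    ∃ Y : ℝ, ∀ y : ℝ, Y ≤ y → C * y ^ (-θ) ≤ η := by
  have h1 : Tendsto (fun y : ℝ => C * y ^ (-θ)) atTop (𝓝 (C * 0)) :=
    (tendsto_rpow_neg_atTop hθ).const_mul C
  rw [mul_zero] at h1
  have h2 := h1.eventually_le_const hη
  obtain ⟨Y, hY⟩ := eventually_atTop.1 h2
  exact ⟨Y, hY⟩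

section

variable (M p q n0 : ℕ)

/-- the size of the shell -/
def NN (n : ℕ) : ℕ := M ^ (2 * q * (n + n0))

/-- the small side of the boxes -/
def LL (n : ℕ) : ℕ := NN M q n0 n / 16

/-- the third side of the boxes -/
def SS (n : ℕ) : ℕ := M ^ (2 * p * (n + n0))

end

section

variable {M p q n0 : ℕ}

theorem bx_props (hM : 16 ∣ M) (hM0 : 0 < M) (hp : p < q) (hn : 1 ≤ n0) (n : ℕ) :
    BX (NN M q n0 n) (LL M q n0 n) (SS M p n0 n) := by
  have h1 : 16 ∣ NN M q n0 n := by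
    unfold NN
    exact dvd_trans hM (dvd_pow_self M (by
      have : 0 < q := by omega
      have h2 : 0 < n + n0 := by omega
      positivity))
  have h2 : 0 < NN M q n0 n := by
    unfold NN
    positivity
  have h3 : NN M q n0 n = 16 * LL M q n0 n := by
    unfold LL
    omega
  refine ⟨by omega, h3, ?_, ?_⟩
  · unfold SS
    exact Nat.one_le_pow _ _ hM0
  · unfold SS NN
    have h4 : M ≠ 1 := by
      rintro rfl
      omega
    have h5 : 2 ≤ M := by omega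
    have h6 : 2 * p * (n + n0) + 1 ≤ 2 * q * (n + n0) := by nlinarith
    calc 2 * M ^ (2 * p * (n + n0)) ≤ M * M ^ (2 * p * (n + n0)) := Nat.mul_le_mul_right _ h5
      _ = M ^ (2 * p * (n + n0) + 1) := by ring
      _ ≤ M ^ (2 * q * (n + n0)) := Nat.pow_le_pow_right hM0 h6

theorem sqrt_m (hM : 16 ∣ M) (hM0 : 0 < M) (hp : p < q) (hn : 1 ≤ n0) (n : ℕ) :
    √((LL M q n0 n * LL M q n0 n * SS M p n0 n : ℕ) : ℝ) =
      (M : ℝ) ^ ((2 * q + p) * (n + n0)) / 16 := by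
  have h1 := (bx_props hM hM0 hp hn n).NL
  have h2 : (M : ℝ) ^ (2 * q * (n + n0)) = 16 * (LL M q n0 n : ℝ) := by
    have h3 : (NN M q n0 n : ℝ) = 16 * (LL M q n0 n : ℝ) := by exact_mod_cast h1
    rw [← h3]
    unfold NN
    push_cast
    rfl
  have h3 : ((LL M q n0 n * LL M q n0 n * SS M p n0 n : ℕ) : ℝ) =
      ((LL M q n0 n : ℝ) * (M : ℝ) ^ (p * (n + n0))) ^ 2 := by
    unfold SS
    push_cast
    ring
  rw [h3, Real.sqrt_sq (by positivity)]
  have h4 : (2 * q + p) * (n + n0) = 2 * q * (n + n0) + p * (n + n0) := by ring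
  rw [h4, pow_add, h2]
  ring

end

end Pool.Agent.K1H17.UN
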