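import Pool.Agent.K1H17.UN.Geo2

/-!
Choice of the boxes and the parameters: the theorem.
-/

open Set Filter Topology

set_option autoImplicit false

namespace Pool.Agent.K1H17.UN

open Pool.Agent.Y5 Pool.Agent.Y5.D Pool.Agent.K1H54.LO

section

variable {M p q d n0 : ℕ} {s₀ : ℝ}

theorem NN_cast (n : ℕ) : ((NN M q n0 n : ℕ) : ℝ) = (M : ℝ) ^ (2 * q * (n + n0)) := by
  unfold NN
  push_cast
  rfl

theorem SS_cast (n : ℕ) : ((SS M p n0 n : ℕ) : ℝ) = (M : ℝ) ^ (2 * p * (n + n0)) := by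
  unfold SS
  push_cast
  rfl

theorem SS_le (hM0 : 0 < M) (hs : (p : ℝ) ≤ s₀ * q) (n : ℕ) :
    ((SS M p n0 n : ℕ) : ℝ) ≤ ((NN M q n0 n : ℕ) : ℝ) ^ s₀ := by
  have hM1 : (1 : ℝ) ≤ M := by exact_mod_cast hM0
  rw [SS_cast, NN_cast, ← Real.rpow_natCast, ← Real.rpow_natCast, ← Real.rpow_mul (by linarith)]
  refine Real.rpow_le_rpow_of_exponent_le hM1 ?_
  push_cast
  have h1 : (0 : ℝ) ≤ 2 * (n + n0) := by positivity
  nlinarith

theorem NN_mono (hM0 : 0 < M) {n n' : ℕ} (h : n ≤ n') : NN M q n0 n ≤ NN M q n0 n' := by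
  unfold NN
  exact Nat.pow_le_pow_right hM0 (Nat.mul_le_mul_left _ (by omega))

theorem NN_lt (hM0 : 2 ≤ M) (hq : 0 < q) {n n' : ℕ} (h : n < n') :
    2 * NN M q n0 n ≤ NN M q n0 n' := by
  unfold NN
  have h1 : 2 * q * (n + n0) + 1 ≤ 2 * q * (n' + n0) := by nlinarith
  calc 2 * M ^ (2 * q * (n + n0)) ≤ M * M ^ (2 * q * (n + n0)) := Nat.mul_le_mul_right _ hM0
    _ = M ^ (2 * q * (n + n0) + 1) := by ring
    _ ≤ M ^ (2 * q * (n' + n0)) := Nat.pow_le_pow_right (by omega) h1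

/-- the boxes -/
theorem geo_boxes (hM : 16 ∣ M) (hM2 : 100 ≤ M) (hp0 : 0 < p) (hp : p < q)
    (hd : 3 * p = 2 * q + d) (hs : (p : ℝ) ≤ s₀ * q) (hs0 : 0 ≤ s₀) (hn : 1 ≤ n0) {N₁ δ₀ : ℝ}
    (hN₁ : N₁ ≤ (M : ℝ) ^ n0) (hδ₀ : 0 < δ₀) :
    Geo s₀ N₁ δ₀ (δ₀ / 16 * (M : ℝ) ^ ((4 * q + d) * n0)) ((M : ℝ) ^ (4 * q + d))
      (fun n => ((NN M q n0 n : ℕ) : ℝ)) (fun n => LL M q n0 n * LL M q n0 n * SS M p n0 n)
      (fun n => bA (NN M q n0 n) (LL M q n0 n) (SS M p n0 n))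
      (fun n => bB (NN M q n0 n) (LL M q n0 n) (SS M p n0 n)) := by
  have hM0 : 0 < M := by omega
  have hq : 0 < q := by omega
  have hx : (100 : ℝ) ≤ M := by exact_mod_cast hM2
  have hx1 : (1 : ℝ) ≤ M := by linarith
  have hx0 : (0 : ℝ) < M := by linarith
  have H : ∀ n, BX (NN M q n0 n) (LL M q n0 n) (SS M p n0 n) := bx_props hM hM0 hp hn
  have hNN : ∀ n, (M : ℝ) ^ n0 ≤ ((NN M q n0 n : ℕ) : ℝ) := by
    intro n
    rw [NN_cast]
    refine pow_le_pow_right₀ hx1 ?_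
    nlinarith
  have hNN1 : ∀ n, (1 : ℝ) ≤ ((NN M q n0 n : ℕ) : ℝ) := fun n =>
    (one_le_pow₀ hx1).trans (hNN n)
  refine
    { thin := fun n k hk => ⟨?_, ?_⟩
      size := fun n k hk => (H n).norm hk
      N1 := hNN1
      pos := fun n k hk => ?_
      cardA := fun n => card_bA
      cardB := fun n => card_bB
      mpos := fun n => ?_
      disj := fun n n' hnn' => ?_
      disj' := fun n => disj_AB
      coef := fun n => ?_
      lam1 := ?_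
      grow := ⟨(M : ℝ) ^ (2 * q * n0), fun n => ?_⟩
      c0 := by positivity }
  · exact (hN₁.trans (hNN n)).trans ((H n).norm hk).1
  · obtain ⟨-, -, h5, h6⟩ := mem_AB hk
    have a5 : (0 : ℝ) ≤ k 2 := by exact_mod_cast h5
    have a6 : (k 2 : ℝ) ≤ ((SS M p n0 n : ℕ) : ℝ) := by exact_mod_cast h6.le
    rw [abs_of_nonneg a5]
    exact a6.trans ((SS_le hM0 hs n).trans
      (Real.rpow_le_rpow (Nat.cast_nonneg _) ((H n).norm hk).1 hs0))
  · obtain ⟨⟨h1, -⟩, -⟩ := mem_AB hk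
    have h2 := (H n).NL
    have h3 := (H n).L1
    omega
  · have h2 := (H n).L1
    have h3 := (H n).S1
    positivity
  · have key : ∀ {n n' : ℕ}, n < n' →
        Disjoint (bA (NN M q n0 n) (LL M q n0 n) (SS M p n0 n) ∪
          bB (NN M q n0 n) (LL M q n0 n) (SS M p n0 n))
        (bA (NN M q n0 n') (LL M q n0 n') (SS M p n0 n') ∪
          bB (NN M q n0 n') (LL M q n0 n') (SS M p n0 n')) := by
      intro n n' hlt
      rw [Finset.disjoint_left]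
      intro k hk hk'
      obtain ⟨⟨-, h1⟩, -⟩ := mem_AB hk
      obtain ⟨⟨h2, -⟩, -⟩ := mem_AB hk'
      have h3 := (H n).NL
      have h4 := NN_lt (n0 := n0) (by omega : 2 ≤ M) hq hlt
      omega
    rcases lt_or_gt_of_ne hnn' with h | h
    · exact key h
    · exact (key h).symm
  · have h1 := sqrt_m hM hM0 hp hn n
    rw [h1]
    have h2 := SS_le (n0 := n0) hM0 hs n
    rw [SS_cast] at h2
    have h3 : (M : ℝ) ^ ((4 * q + d) * n0) * ((M : ℝ) ^ (4 * q + d)) ^ n =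
        (M : ℝ) ^ (2 * p * (n + n0)) * (M : ℝ) ^ ((2 * q + p) * (n + n0)) := by
      rw [← pow_mul, ← pow_add, ← pow_add]
      congr 1
      have h5 : 4 * q + d = 3 * p + 2 * q := by omega
      rw [h5]
      ring
    calc δ₀ / 16 * (M : ℝ) ^ ((4 * q + d) * n0) * ((M : ℝ) ^ (4 * q + d)) ^ n
        = δ₀ / 16 * ((M : ℝ) ^ ((4 * q + d) * n0) * ((M : ℝ) ^ (4 * q + d)) ^ n) := by ring
      _ = δ₀ * (M : ℝ) ^ (2 * p * (n + n0)) * ((M : ℝ) ^ ((2 * q + p) * (n + n0)) / 16) := by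
          rw [h3]
          ring
      _ ≤ δ₀ * ((NN M q n0 n : ℕ) : ℝ) ^ s₀ * ((M : ℝ) ^ ((2 * q + p) * (n + n0)) / 16) := by
          gcongr
  · refine one_lt_pow₀ (by linarith) (by omega)
  · rw [NN_cast, ← pow_mul]
    rw [← pow_add]
    refine pow_le_pow_right₀ hx1 ?_
    nlinarith

/-- further properties of the boxes -/
theorem geo_ext (hM : 16 ∣ M) (hM2 : 100 ≤ M) (hp0 : 0 < p) (hp : p < q)
    (hd : 3 * p = 2 * q + d) (hn : 1 ≤ n0) :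
    GeoX ((M : ℝ) ^ (4 * q + d)) (fun n => LL M q n0 n * LL M q n0 n * SS M p n0 n)
      (fun n => bA (NN M q n0 n) (LL M q n0 n) (SS M p n0 n)) := by
  have hM0 : 0 < M := by omega
  have hx : (100 : ℝ) ≤ M := by exact_mod_cast hM2
  have hx1 : (1 : ℝ) ≤ M := by linarith
  have H : ∀ n, BX (NN M q n0 n) (LL M q n0 n) (SS M p n0 n) := bx_props hM hM0 hp hn
  have hstep : ∀ n, (M : ℝ) ^ ((2 * q + p) * (n + 1 + n0)) =
      (M : ℝ) ^ (2 * q + p) * (M : ℝ) ^ ((2 * q + p) * (n + n0)) := by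
    intro n
    rw [← pow_add]
    congr 1
    ring
  refine ⟨fun n => ?_, fun n => ?_, fun n => (H n).pt, fun n k hk =>
    (H n).pe (Finset.mem_union_left _ hk)⟩
  · rw [sqrt_m hM hM0 hp hn n, sqrt_m hM hM0 hp hn (n + 1), hstep]
    have h1 : (100 : ℝ) ≤ (M : ℝ) ^ (2 * q + p) := by
      refine hx.trans ?_
      exact le_self_pow₀ hx1 (by omega)
    have h2 : (0 : ℝ) ≤ (M : ℝ) ^ ((2 * q + p) * (n + n0)) := by positivity
    nlinarith
  · rw [sqrt_m hM hM0 hp hn n, sqrt_m hM hM0 hp hn (n + 1), hstep]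
    have h1 : (M : ℝ) ^ (2 * q + p) ≤ (M : ℝ) ^ (4 * q + d) :=
      pow_le_pow_right₀ hx1 (by omega)
    have h2 : (0 : ℝ) ≤ (M : ℝ) ^ ((2 * q + p) * (n + n0)) := by positivity
    nlinarith

end

/-- **Choice of the boxes and the parameters.** -/
theorem t_GEO : S_GEO := by
  intro ν η s₀ s₁ δ₀ N₁ hν hη hδ₀ hs0 hs1 hs₁
  obtain ⟨p, q, d, hp0, hpq, hd0, hd, hs, hσ⟩ := exists_pq hs0 hs1 hs₁
  obtain ⟨M, hMd⟩ : ∃ M : ℕ, M = 16 * 10 ^ 13 := ⟨_, rfl⟩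
  have hM : 16 ∣ M := ⟨10 ^ 13, hMd⟩
  have hM100 : 100 ≤ M := by
    rw [hMd]
    norm_num
  have hMR : (M : ℝ) = 16 * 10 ^ 13 := by
    rw [hMd]
    push_cast
    ring
  have hx13 : (10 : ℝ) ^ 13 ≤ M := by
    rw [hMR]
    norm_num
  have hx1 : (1 : ℝ) < M := by
    rw [hMR]
    norm_num
  obtain ⟨x, hxd⟩ : ∃ x : ℝ, x = M := ⟨_, rfl⟩
  have hx1' : 1 < x := by rw [hxd]; exact hx1
  have hx0 : 0 < x := by linarith
  obtain ⟨lam, hlam⟩ : ∃ lam : ℝ, lam = x ^ (4 * q + d) := ⟨_, rfl⟩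
  have hlam0 : 0 < lam := by rw [hlam]; positivity
  obtain ⟨C, hC⟩ : ∃ C : ℝ, C = 256 * Real.pi ^ 2 * ν * Real.exp (700 * lam) / δ₀ := ⟨_, rfl⟩
  have hpi := Real.pi_pos
  have hC0 : 0 < C := by rw [hC]; positivity
  obtain ⟨σ, hσd⟩ : ∃ σ : ℝ, σ = max s₁ 0 := ⟨_, rfl⟩
  rw [← hσd] at hσ
  have hσ0 : 0 ≤ σ := by rw [hσd]; exact le_max_right _ _
  have hσ1 : s₁ ≤ σ := by rw [hσd]; exact le_max_left _ _
  obtain ⟨Y1, hY1⟩ := exists_decay (C ^ 2 * (4 * Real.pi) ^ (2 * σ)) (2 * d - 4 * q * σ) η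
    (by linarith) hη
  obtain ⟨n0, hn0, hbig⟩ := exists_big x hx1'
    (max (max Y1 N₁) (1040 * lam / (16 * Real.pi ^ 2 * ν * Real.exp (700 * lam) * η)))
  have hb1 : Y1 ≤ x ^ n0 := ((le_max_left _ _).trans (le_max_left _ _)).trans hbig
  have hb2 : N₁ ≤ x ^ n0 := ((le_max_right _ _).trans (le_max_left _ _)).trans hbig
  have hb3 : 1040 * lam / (16 * Real.pi ^ 2 * ν * Real.exp (700 * lam) * η) ≤ x ^ n0 :=
    (le_max_right _ _).trans hbig
  obtain ⟨y, hy⟩ : ∃ y : ℝ, y = x ^ n0 := ⟨_, rfl⟩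
  have hy1 : 1 ≤ y := by rw [hy]; exact one_le_pow₀ hx1'.le
  have hy0 : 0 < y := by linarith
  rw [← hy] at hb1 hb2 hb3
  obtain ⟨a₀, ha₀⟩ : ∃ a₀ : ℝ, a₀ = C / y ^ d := ⟨_, rfl⟩
  obtain ⟨c₀, hc₀⟩ : ∃ c₀ : ℝ, c₀ = δ₀ / 16 * x ^ ((4 * q + d) * n0) := ⟨_, rfl⟩
  have ha0 : 0 < a₀ := by rw [ha₀]; positivity
  have hca : c₀ * a₀ = 16 * Real.pi ^ 2 * ν * Real.exp (700 * lam) * y ^ (4 * q) := by
    have h1 : x ^ ((4 * q + d) * n0) = y ^ (4 * q) * y ^ d := by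
      rw [hy, ← pow_mul, ← pow_mul, ← pow_add]
      congr 1
      ring
    rw [hc₀, ha₀, h1, hC]
    field_simp
    ring
  refine ⟨lam, c₀, a₀, fun n => ((NN M q n0 n : ℕ) : ℝ),
    fun n => LL M q n0 n * LL M q n0 n * SS M p n0 n,
    fun n => bA (NN M q n0 n) (LL M q n0 n) (SS M p n0 n),
    fun n => bB (NN M q n0 n) (LL M q n0 n) (SS M p n0 n), ?_, ha0, ?_, ?_, fun n => ?_,
    fun k hk => ?_, ?_⟩
  · rw [hlam, hxd]
    exact hx13.trans (le_self_pow₀ hx1.le (by omega))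
  · rw [hlam, hc₀, hxd]
    exact geo_boxes hM hM100 hp0 hpq hd hs (by linarith) hn0 (by rw [← hxd, ← hy]; exact hb2) hδ₀
  · rw [hlam, hxd]
    exact geo_ext hM hM100 hp0 hpq hd hn0
  · -- the damping
    have h1 : Real.exp (-(700 * lam)) * Real.exp (700 * lam) = 1 := by
      rw [← Real.exp_add, neg_add_cancel, Real.exp_zero]
    have h2 : ((NN M q n0 n : ℕ) : ℝ) ^ 2 = x ^ (4 * q * n) * y ^ (4 * q) := by
      rw [NN_cast, ← hxd, hy, ← pow_mul, ← pow_mul, ← pow_add]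
      congr 1
      ring
    have h3 : lam ^ n = x ^ (4 * q * n) * (x ^ d) ^ n := by
      rw [hlam, ← pow_mul, ← pow_mul, ← pow_add]
      congr 1
      ring
    have h4 : 1 ≤ (x ^ d * (1 - 1 / 10 ^ 5)) ^ n := by
      refine one_le_pow₀ ?_
      have h5 : x ≤ x ^ d := le_self_pow₀ hx1'.le (by omega)
      have h6 : (100 : ℝ) ≤ x := by
        rw [hxd]
        exact_mod_cast hM100
      nlinarith
    have e1 : Real.exp (-(700 * lam)) * (c₀ * a₀ * lam ^ n) * (1 - 1 / 10 ^ 5) ^ n =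
        16 * Real.pi ^ 2 * ν * (x ^ (4 * q * n) * y ^ (4 * q)) *
          (x ^ d * (1 - 1 / 10 ^ 5)) ^ n := by
      rw [hca, h3, mul_pow]
      linear_combination (16 * Real.pi ^ 2 * ν * y ^ (4 * q) * (x ^ (4 * q * n) * (x ^ d) ^ n) *
        (1 - 1 / 10 ^ 5) ^ n) * h1
    have e2 : ν * (2 * Real.pi * (2 * ((NN M q n0 n : ℕ) : ℝ))) ^ 2 =
        16 * Real.pi ^ 2 * ν * (x ^ (4 * q * n) * y ^ (4 * q)) := by
      rw [← h2]
      ring
    rw [e1, e2]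
    refine le_mul_of_one_le_right (by positivity) h4
  · -- the datum
    have hN := (bx_props hM (by omega) hpq hn0 0).norm (Finset.mem_union_left _ hk)
    have hN0 : ((NN M q n0 0 : ℕ) : ℝ) = y ^ (2 * q) := by
      rw [NN_cast, ← hxd, hy, ← pow_mul]
      congr 1
      ring
    rw [hN0] at hN
    have h1 : (1 : ℝ) ≤ ‖vec k‖ := (one_le_pow₀ hy1).trans hN.1
    have h2 : (1 : ℝ) ≤ 2 * Real.pi * ‖vec k‖ := by
      have := Real.pi_gt_three
      nlinarith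
    have h3 : (2 * Real.pi * ‖vec k‖) ^ (2 * s₁) ≤ (4 * Real.pi * y ^ (2 * q)) ^ (2 * σ) := by
      refine (Real.rpow_le_rpow_of_exponent_le h2 (by linarith : 2 * s₁ ≤ 2 * σ)).trans ?_
      refine Real.rpow_le_rpow (by linarith) ?_ (by linarith)
      nlinarith [hN.2]
    have h4 : (4 * Real.pi * y ^ (2 * q)) ^ (2 * σ) =
        (4 * Real.pi) ^ (2 * σ) * y ^ (4 * q * σ) := by
      rw [Real.mul_rpow (by positivity) (by positivity), ← Real.rpow_natCast y,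
        ← Real.rpow_mul hy0.le]
      congr 2
      push_cast
      ring
    have h5 : a₀ ^ 2 = C ^ 2 * y ^ (-(2 * d : ℝ)) := by
      rw [ha₀, Real.rpow_neg hy0.le, div_pow, ← pow_mul]
      have h6 : y ^ (2 * d : ℝ) = y ^ (d * 2) := by
        rw [← Real.rpow_natCast]
        congr 1
        push_cast
        ring
      rw [h6]
      rfl
    calc a₀ ^ 2 * (2 * Real.pi * ‖vec k‖) ^ (2 * s₁)
        ≤ a₀ ^ 2 * (4 * Real.pi * y ^ (2 * q)) ^ (2 * σ) := by gcongr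
      _ = C ^ 2 * (4 * Real.pi) ^ (2 * σ) * (y ^ (-(2 * d : ℝ)) * y ^ (4 * q * σ)) := by
          rw [h4, h5]
          ring
      _ = C ^ 2 * (4 * Real.pi) ^ (2 * σ) * y ^ (-(2 * d - 4 * q * σ)) := by
          rw [← Real.rpow_add hy0]
          congr 2
          ring
      _ ≤ η := hY1 y hb1
  · -- the time
    have h1 : 0 < c₀ * a₀ := by rw [hca]; positivity
    rw [div_le_iff₀ h1, hca]
    rw [div_le_iff₀ (by positivity)] at hb3
    refine hb3.trans ?_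
    have h2 : y ≤ y ^ (4 * q) := le_self_pow₀ hy1 (by omega)
    have h3 : 0 ≤ 16 * Real.pi ^ 2 * ν * Real.exp (700 * lam) * η := by positivity
    have h4 := mul_le_mul_of_nonneg_right h2 h3
    have h5 : y ^ (4 * q) * (16 * Real.pi ^ 2 * ν * Real.exp (700 * lam) * η) =
        η * (16 * Real.pi ^ 2 * ν * Real.exp (700 * lam) * y ^ (4 * q)) := by ring
    rw [← h5]
    exact h4

end Pool.Agent.K1H17.UN
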