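import Pool.Agent.K1H17.UN.En

/-!
Uniqueness and the energy identity for the perturbed Navier-Stokes equations (`S_UNIL`).
-/

open Set Filter Topology MeasureTheory

set_option autoImplicit false

namespace Pool.Agent.K1H17.UN

open Pool.Agent.Y5 Pool.Agent.Y5.D Pool.Agent.Y5.E
open Pool.Agent.Y301.G
open Pool.Agent.Y248.ND (bil_anti vec_neg one_le_vec)
open Pool.Agent.K1H54.LO

/-! ### Pairings -/

/-- the summability of the weighted norms -/
def W1 (Z : Fam) : Prop := Summable (fun k => (1 + ‖vec k‖) * ‖Z k‖)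

lemma bd_w1 {M : ℝ} {Z : Fam} (h : Bd M Z) : W1 Z := by
  refine Summable.of_nonneg_of_le (fun k => by positivity) (fun k => ?_) (wt_sum.mul_left M)
  refine wt_le k ?_ h.nonneg
  calc (1 + ‖vec k‖) ^ 6 * ((1 + ‖vec k‖) * ‖Z k‖) = (1 + ‖vec k‖) ^ 7 * ‖Z k‖ := by ring
    _ ≤ M := h k

lemma fin_w1 {Z : Fam} (h : {k | Z k ≠ 0}.Finite) : W1 Z := by
  apply summable_of_hasFiniteSupport
  refine h.subset fun k hk => ?_
  simp only [Function.mem_support, ne_eq, mul_eq_zero, norm_eq_zero, not_or] at hk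
  exact hk.2

lemma fin_rap {Z : Fam} (h : {k | Z k ≠ 0}.Finite) : Rap Z := by
  intro m
  refine ⟨∑ k ∈ h.toFinset, ‖vec k‖ ^ m * ‖Z k‖, fun k => ?_⟩
  by_cases hk : Z k = 0
  · rw [hk, norm_zero, mul_zero]
    exact Finset.sum_nonneg fun _ _ => by positivity
  · exact Finset.single_le_sum (f := fun k => ‖vec k‖ ^ m * ‖Z k‖) (fun _ _ => by positivity)
      (h.mem_toFinset.2 hk)

/-- linear growth -/
def Gr (K : ℝ) (A : Fam) : Prop := ∀ k, ‖A k‖ ≤ K * (1 + ‖vec k‖)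

lemma psum {A Z : Fam} {K : ℝ} (hA : Gr K A) (hZ : W1 Z) :
    Summable (fun k => (inner ℝ (A k) (Z k) : ℝ)) := by
  refine Summable.of_norm_bounded (hZ.mul_left K) (fun k => ?_)
  refine (norm_inner_le_norm _ _).trans ?_
  calc ‖A k‖ * ‖Z k‖ ≤ (K * (1 + ‖vec k‖)) * ‖Z k‖ :=
        mul_le_mul_of_nonneg_right (hA k) (norm_nonneg _)
    _ = _ := by ring

lemma pair_add' {A B Z : Fam} {K L : ℝ} (hA : Gr K A) (hB : Gr L B) (hZ : W1 Z) :
    pair (fun k => A k + B k) Z = pair A Z + pair B Z := by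
  unfold pair
  rw [← (psum hA hZ).tsum_add (psum hB hZ)]
  exact tsum_congr fun k => inner_add_left _ _ _

lemma pair_sub' {A B Z : Fam} {K L : ℝ} (hA : Gr K A) (hB : Gr L B) (hZ : W1 Z) :
    pair (fun k => A k - B k) Z = pair A Z - pair B Z := by
  unfold pair
  rw [← (psum hA hZ).tsum_sub (psum hB hZ)]
  exact tsum_congr fun k => inner_sub_left _ _ _

lemma pair_sub_right {A Y Z : Fam} {K : ℝ} (hA : Gr K A) (hY : W1 Y) (hZ : W1 Z) :
    pair A (fun k => Y k - Z k) = pair A Y - pair A Z := by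
  unfold pair
  rw [← (psum hA hY).tsum_sub (psum hA hZ)]
  exact tsum_congr fun k => inner_sub_right _ _ _

lemma bd_gr {M : ℝ} {V : Fam} (h : Bd M V) : Gr M V := fun k => by
  have h1 := h.le k
  have h2 := h.nonneg
  nlinarith [norm_nonneg (vec k)]

lemma Gr.add {A B : Fam} {K L : ℝ} (hA : Gr K A) (hB : Gr L B) :
    Gr (K + L) (fun k => A k + B k) := fun k => by
  refine (norm_add_le _ _).trans ?_
  rw [add_mul]
  exact add_le_add (hA k) (hB k)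

lemma Gr.sub {A B : Fam} {K L : ℝ} (hA : Gr K A) (hB : Gr L B) :
    Gr (K + L) (fun k => A k - B k) := fun k => by
  refine (norm_sub_le _ _).trans ?_
  rw [add_mul]
  exact add_le_add (hA k) (hB k)

/-! ### The nonlinearity -/

/-- the family which represents the trilinear form -/
noncomputable def Hf (V W : Fam) : Fam := fun k =>
  (-(2 * Real.pi)) • ∑' p : Z3, (inner ℝ (V p) (vec k) : ℝ) • W (k - p)

lemma Hf_term {V W : Fam} {M : ℝ} (hW : ∀ k, ‖W k‖ ≤ M) (k p : Z3) :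
    ‖(inner ℝ (V p) (vec k) : ℝ) • W (k - p)‖ ≤ M * ‖vec k‖ * ‖V p‖ := by
  rw [norm_smul]
  calc ‖(inner ℝ (V p) (vec k) : ℝ)‖ * ‖W (k - p)‖ ≤ (‖V p‖ * ‖vec k‖) * M := by
        gcongr
        · exact norm_inner_le_norm _ _
        · exact hW _
    _ = _ := by ring

lemma Hf_summ {V W : Fam} {M : ℝ} (hW : ∀ k, ‖W k‖ ≤ M) (hV : Summable (fun k => ‖V k‖))
    (k : Z3) : Summable (fun p : Z3 => (inner ℝ (V p) (vec k) : ℝ) • W (k - p)) :=
  Summable.of_norm_bounded (hV.mul_left (M * ‖vec k‖)) (fun p => Hf_term hW k p)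

lemma Hf_le {V W : Fam} {M : ℝ} (hW : ∀ k, ‖W k‖ ≤ M) (hV : Summable (fun k => ‖V k‖))
    (k : Z3) : ‖Hf V W k‖ ≤ 2 * Real.pi * (M * ‖vec k‖ * ∑' p, ‖V p‖) := by
  unfold Hf
  rw [norm_smul, norm_neg, Real.norm_eq_abs, abs_of_pos Real.two_pi_pos]
  refine mul_le_mul_of_nonneg_left ?_ Real.two_pi_pos.le
  rw [← tsum_mul_left]
  refine (norm_tsum_le_tsum_norm (Hf_summ hW hV k).norm).trans ?_
  exact (Hf_summ hW hV k).norm.tsum_le_tsum (fun p => Hf_term hW k p) (hV.mul_left _)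

lemma bil_pair {V W Z : Fam} {M : ℝ} (hW : ∀ k, ‖W k‖ ≤ M) (hV : Summable (fun k => ‖V k‖))
    (hZ : Summable (fun k => ‖vec k‖ * ‖Z k‖)) : bil V W Z = pair (Hf V W) Z := by
  have s := bil_term_sum hW hV hZ
  have s2 : Summable (Function.uncurry fun (p k : Z3) =>
      (inner ℝ (V p) (vec k) : ℝ) * inner ℝ (W (k - p)) (Z k)) := s
  have h1 : ∑' q : Z3 × Z3, (inner ℝ (V q.1) (vec q.2) : ℝ) * inner ℝ (W (q.2 - q.1)) (Z q.2) =
      ∑' k : Z3, ∑' p : Z3, (inner ℝ (V p) (vec k) : ℝ) * inner ℝ (W (k - p)) (Z k) := by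
    rw [s.tsum_prod, s2.tsum_comm]
  have h2 : ∀ k : Z3, ∑' p : Z3, (inner ℝ (V p) (vec k) : ℝ) * inner ℝ (W (k - p)) (Z k) =
      inner ℝ (∑' p : Z3, (inner ℝ (V p) (vec k) : ℝ) • W (k - p)) (Z k) := by
    intro k
    have h3 := (innerSL ℝ (Z k)).map_tsum (Hf_summ hW hV k)
    simp only [innerSL_apply_apply, inner_smul_right] at h3
    rw [real_inner_comm, h3]
    exact tsum_congr fun p => by rw [real_inner_comm (Z k)]
  unfold bil pair Hf
  rw [h1, tsum_congr h2, ← tsum_mul_left]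
  exact tsum_congr fun k => by rw [inner_smul_left]; simp

/-! ### The perturbation -/

lemma l2_tst (k : Z3) (x : E3) : l2 (tst k x) ≤ ‖x‖ := by
  classical
  unfold l2
  rw [Real.sqrt_le_left (norm_nonneg _)]
  have s1 : HasSum (fun l : Z3 => if l = k then 1 / 2 * ‖x‖ ^ 2 else 0) (1 / 2 * ‖x‖ ^ 2) :=
    hasSum_ite_eq k _
  have s2 : HasSum (fun l : Z3 => if l = -k then 1 / 2 * ‖x‖ ^ 2 else 0) (1 / 2 * ‖x‖ ^ 2) :=
    hasSum_ite_eq (-k) _
  have h1 : ∀ l, ‖tst k x l‖ ^ 2 ≤ (if l = k then 1 / 2 * ‖x‖ ^ 2 else 0) +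
      (if l = -k then 1 / 2 * ‖x‖ ^ 2 else 0) := by
    intro l
    unfold tst
    have h2 : ∀ a b : E3, ‖a - b‖ ^ 2 ≤ 2 * ‖a‖ ^ 2 + 2 * ‖b‖ ^ 2 := fun a b => by
      have h3 := norm_sub_le a b
      have h4 : ‖a - b‖ ^ 2 ≤ (‖a‖ + ‖b‖) ^ 2 := pow_le_pow_left₀ (norm_nonneg _) h3 2
      nlinarith [sq_nonneg (‖a‖ - ‖b‖)]
    have h5 : ∀ P : Prop, ∀ _ : Decidable P,
        2 * ‖(if P then (1 / 2 : ℝ) • x else 0 : E3)‖ ^ 2 = if P then 1 / 2 * ‖x‖ ^ 2 else 0 := by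
      intro P _
      split_ifs
      · rw [norm_smul, Real.norm_of_nonneg (by norm_num)]
        ring
      · simp
    refine (h2 _ _).trans (le_of_eq ?_)
    rw [h5, h5]
  have h3 : Summable (fun l => ‖tst k x l‖ ^ 2) :=
    Summable.of_nonneg_of_le (fun _ => by positivity) h1 (s1.add s2).summable
  have h4 := h3.tsum_le_tsum h1 (s1.add s2).summable
  rw [(s1.add s2).tsum_eq] at h4
  linarith

lemma A1_one (V : Fam) : A1 1 V = ∑' k, ‖vec k‖ * ‖V k‖ := by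
  unfold A1
  exact tsum_congr fun k => by rw [Real.rpow_one]

lemma l2_nonneg (V : Fam) : 0 ≤ l2 V := Real.sqrt_nonneg _

lemma A1_nonneg (V : Fam) : 0 ≤ A1 1 V := by
  rw [A1_one]
  exact tsum_nonneg fun _ => by positivity

/-- the size of the family which represents the perturbation -/
lemma G_le {s δ C : ℝ} {Q : Z3 → Prop} {β : Fam → Fam → Fam → ℝ} (h : FPert s δ C Q β)
    {V W G : Fam} (hV : OT V) (hV' : Rap V) (hW : OT W) (hW' : Rap W) (hG : OT G)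
    (he : ∀ Z, OT Z → Rap Z → β V W Z = pair G Z) (k : Z3) :
    ‖G k‖ ≤ |C| * (l2 V * A1 1 W) := by
  have h1 := he (tst k (G k)) (tst_ot (hG.tan k)) (fin_rap (tst_fin _ _))
  have h2 := h.low V W (tst k (G k)) hV hV' hW hW' (tst_ot (hG.tan k)) (fin_rap (tst_fin _ _))
  rw [h1, pair_tst, hG.odd k, sub_neg_eq_add, inner_add_left, real_inner_self_eq_norm_sq] at h2
  have h3 := l2_tst k (G k)
  have h4 : ‖G k‖ ^ 2 ≤ |C| * (l2 V * A1 1 W) * ‖G k‖ := by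
    calc ‖G k‖ ^ 2 ≤ |1 / 2 * (‖G k‖ ^ 2 + ‖G k‖ ^ 2)| := by
          refine le_trans (le_of_eq ?_) (le_abs_self _)
          ring
      _ ≤ C * l2 V * A1 1 W * l2 (tst k (G k)) := h2
      _ = C * ((l2 V * A1 1 W) * l2 (tst k (G k))) := by ring
      _ ≤ |C| * ((l2 V * A1 1 W) * ‖G k‖) := by
          refine mul_le_mul (le_abs_self C) ?_ ?_ (abs_nonneg _)
          · exact mul_le_mul_of_nonneg_left h3 (mul_nonneg (l2_nonneg _) (A1_nonneg _))
          · exact mul_nonneg (mul_nonneg (l2_nonneg _) (A1_nonneg _)) (l2_nonneg _)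
      _ = _ := by ring
  rcases eq_or_lt_of_le (norm_nonneg (G k)) with h5 | h5
  · rw [← h5]
    exact mul_nonneg (abs_nonneg _) (mul_nonneg (l2_nonneg _) (A1_nonneg _))
  · have h6 : ‖G k‖ * ‖G k‖ ≤ |C| * (l2 V * A1 1 W) * ‖G k‖ := by
      rw [← pow_two]
      exact h4
    exact le_of_mul_le_mul_right h6 h5

lemma A1_le {M : ℝ} {V : Fam} (h : Bd M V) : A1 1 V ≤ M * ∑' k, wt k := by
  rw [A1_one]
  exact h.tsum1

lemma wt_nonneg : 0 ≤ ∑' k, wt k := tsum_nonneg (fun k => by unfold wt; positivity)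

lemma l2_le {M : ℝ} {V : Fam} (h : Bd M V) : l2 V ≤ M * (1 + ∑' k, wt k) := by
  unfold l2
  have h0 := h.nonneg
  have hw := wt_nonneg
  rw [Real.sqrt_le_left (by positivity)]
  calc ∑' k, ‖V k‖ ^ 2 ≤ ∑' k, M * ‖V k‖ := by
        refine h.sq.tsum_le_tsum (fun k => ?_) (h.sum.mul_left M)
        rw [pow_two]
        exact mul_le_mul_of_nonneg_right (h.le k) (norm_nonneg _)
    _ = M * ∑' k, ‖V k‖ := tsum_mul_left
    _ ≤ M * (M * ∑' k, wt k) := mul_le_mul_of_nonneg_left h.tsum h0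
    _ ≤ (M * (1 + ∑' k, wt k)) ^ 2 := by
        have : 0 ≤ M * M := mul_nonneg h0 h0
        nlinarith [mul_nonneg this hw, mul_nonneg this (mul_nonneg hw hw)]

/-- the family which represents the right hand side -/
noncomputable def Qv (ν : ℝ) (V G : Fam) : Fam := fun k =>
  ((-(ν * (2 * Real.pi) ^ 2) * ‖vec k‖ ^ 2) • V k + Hf V V k) + G k

lemma lp_gr {M : ℝ} {V : Fam} (ν : ℝ) (h : Bd M V) :
    Gr (|ν| * (2 * Real.pi) ^ 2 * M) (fun k => (-(ν * (2 * Real.pi) ^ 2) * ‖vec k‖ ^ 2) • V k) := by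
  intro k
  have h0 := h.nonneg
  have h1 : ‖vec k‖ ^ 2 * ‖V k‖ ≤ M := by
    refine le_trans ?_ (h k)
    refine mul_le_mul_of_nonneg_right ?_ (norm_nonneg _)
    calc ‖vec k‖ ^ 2 ≤ (1 + ‖vec k‖) ^ 2 := by
          gcongr
          linarith [norm_nonneg (vec k)]
      _ ≤ (1 + ‖vec k‖) ^ 7 := pow_le_pow_right₀ (by linarith [norm_nonneg (vec k)]) (by norm_num)
  rw [norm_smul, norm_mul, norm_neg, norm_mul, Real.norm_eq_abs ν,
    Real.norm_of_nonneg (by positivity : (0 : ℝ) ≤ (2 * Real.pi) ^ 2),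
    Real.norm_of_nonneg (by positivity : (0 : ℝ) ≤ ‖vec k‖ ^ 2)]
  calc |ν| * (2 * Real.pi) ^ 2 * ‖vec k‖ ^ 2 * ‖V k‖
      = |ν| * (2 * Real.pi) ^ 2 * (‖vec k‖ ^ 2 * ‖V k‖) := by ring
    _ ≤ |ν| * (2 * Real.pi) ^ 2 * M := by gcongr
    _ = |ν| * (2 * Real.pi) ^ 2 * M * 1 := (mul_one _).symm
    _ ≤ |ν| * (2 * Real.pi) ^ 2 * M * (1 + ‖vec k‖) := by
        gcongr
        linarith [norm_nonneg (vec k)]

lemma Hf_gr {M : ℝ} {V : Fam} (h : Bd M V) :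
    Gr (2 * Real.pi * (M * (M * ∑' k, wt k))) (Hf V V) := by
  intro k
  have h0 := h.nonneg
  have hw := wt_nonneg
  refine (Hf_le h.le h.sum k).trans ?_
  calc 2 * Real.pi * (M * ‖vec k‖ * ∑' p, ‖V p‖)
      ≤ 2 * Real.pi * (M * (1 + ‖vec k‖) * (M * ∑' k, wt k)) := by
        have := Real.two_pi_pos.le
        gcongr
        · linarith
        · exact h.tsum
    _ = _ := by ring

lemma G_gr {K : ℝ} {G : Fam} (h : ∀ k, ‖G k‖ ≤ K) : Gr K G := fun k => by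
  have h1 := h k
  have h0 : 0 ≤ K := (norm_nonneg _).trans h1
  nlinarith [norm_nonneg (vec k)]

/-- the right hand side of the equation -/
lemma rep {M K ν : ℝ} {V G Z : Fam} (h : Bd M V) (hG : ∀ k, ‖G k‖ ≤ K) (hZ : W1 Z) :
    pair (Qv ν V G) Z = -(ν * lpn V Z) + bil V V Z + pair G Z := by
  have hZ1 : Summable (fun k => ‖vec k‖ * ‖Z k‖) :=
    Summable.of_nonneg_of_le (fun _ => by positivity) (fun k => by
      refine mul_le_mul_of_nonneg_right ?_ (norm_nonneg _)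
      linarith) hZ
  have h1 := pair_add' (lp_gr ν h) (Hf_gr h) hZ
  have h2 := pair_add' ((lp_gr ν h).add (Hf_gr h)) (G_gr hG) hZ
  have h3 : pair (fun k => (-(ν * (2 * Real.pi) ^ 2) * ‖vec k‖ ^ 2) • V k) Z = -(ν * lpn V Z) := by
    unfold pair lpn
    have h4 : ∀ x : ℝ, -(ν * ((2 * Real.pi) ^ 2 * x)) = -(ν * (2 * Real.pi) ^ 2) * x := fun x => by
      ring
    rw [h4, ← tsum_mul_left]
    refine tsum_congr fun k => ?_
    rw [inner_smul_left]
    simp only [conj_trivial]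
    ring
  have h4 : pair (Qv ν V G) Z = _ := h2
  rw [h4, h1, h3, bil_pair h.le h.sum hZ1]

/-! ### Solutions -/

section
variable {s δ C ν T : ℝ} {Q : Z3 → Prop} {β : Fam → Fam → Fam → ℝ}

/-- uniform bounds -/
lemma exB {T' : ℝ} {V : ℝ → Fam} (h : FSolL ν β T V) (hT : T' < T) :
    ∃ M, ∀ t ∈ Icc 0 T', Bd M (V t) := by
  obtain ⟨M0, h0⟩ := h.rap 0 T' hT
  obtain ⟨Mn, hn⟩ := h.rap 7 T' hT
  refine ⟨2 ^ 7 * (M0 + Mn), fun t ht k => ?_⟩
  have h1 : (1 + ‖vec k‖) ^ 7 ≤ 2 ^ 7 * (1 + ‖vec k‖ ^ 7) := by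
    rcases le_total ‖vec k‖ 1 with h | h
    · calc (1 + ‖vec k‖) ^ 7 ≤ 2 ^ 7 := by
            gcongr; linarith
        _ ≤ 2 ^ 7 * (1 + ‖vec k‖ ^ 7) := le_mul_of_one_le_right (by positivity) (by
            have : 0 ≤ ‖vec k‖ ^ 7 := by positivity
            linarith)
    · calc (1 + ‖vec k‖) ^ 7 ≤ (2 * ‖vec k‖) ^ 7 := by
            gcongr; linarith
        _ = 2 ^ 7 * ‖vec k‖ ^ 7 := mul_pow _ _ _
        _ ≤ 2 ^ 7 * (1 + ‖vec k‖ ^ 7) := by gcongr; linarith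
  calc (1 + ‖vec k‖) ^ 7 * ‖V t k‖ ≤ 2 ^ 7 * (1 + ‖vec k‖ ^ 7) * ‖V t k‖ := by gcongr
    _ = 2 ^ 7 * (‖vec k‖ ^ 0 * ‖V t k‖ + ‖vec k‖ ^ 7 * ‖V t k‖) := by ring
    _ ≤ 2 ^ 7 * (M0 + Mn) := by gcongr <;> [exact h0 t ht k; exact hn t ht k]

lemma solrap {V : ℝ → Fam} (h : FSolL ν β T V) {t : ℝ} (ht : t ∈ Ico 0 T) : Rap (V t) := by
  intro m
  obtain ⟨T', h1, h2⟩ := exists_between ht.2
  obtain ⟨M, hM⟩ := h.rap m T' h2
  exact ⟨M, fun k => hM t ⟨ht.1, h1.le⟩ k⟩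

/-- the families which represent the perturbation along the solution -/
lemma exG (h : FPert s δ C Q β) {V : ℝ → Fam} (hV : FSolL ν β T V) :
    ∃ G : ℝ → Fam, ∀ t ∈ Ico 0 T, OT (G t) ∧ Rap (G t) ∧
      (∀ Z, OT Z → Rap Z → β (V t) (V t) Z = pair (G t) Z) ∧
      ∀ k, ‖G t k‖ ≤ |C| * (l2 (V t) * A1 1 (V t)) := by
  have h1 : ∀ t, ∃ G : Fam, t ∈ Ico 0 T → OT G ∧ Rap G ∧
      (∀ Z, OT Z → Rap Z → β (V t) (V t) Z = pair G Z) ∧
      ∀ k, ‖G k‖ ≤ |C| * (l2 (V t) * A1 1 (V t)) := by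
    intro t
    by_cases ht : t ∈ Ico 0 T
    · obtain ⟨G, hG1, hG2, hG3⟩ := h.range (V t) (V t) (hV.ot t ht) (solrap hV ht) (hV.ot t ht)
        (solrap hV ht)
      exact ⟨G, fun _ => ⟨hG1, hG2, hG3, fun k => G_le h (hV.ot t ht) (solrap hV ht)
        (hV.ot t ht) (solrap hV ht) hG1 hG3 k⟩⟩
    · exact ⟨0, fun h => absurd h ht⟩
  choose G hG using h1
  exact ⟨G, fun t ht => hG t ht⟩

lemma Gbd {G : ℝ → Fam} {V : ℝ → Fam} {M T' : ℝ} (hT : T' < T)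
    (hG : ∀ t ∈ Ico 0 T, ∀ k, ‖G t k‖ ≤ |C| * (l2 (V t) * A1 1 (V t)))
    (hM : ∀ t ∈ Icc 0 T', Bd M (V t)) : ∀ t ∈ Icc 0 T', ∀ k,
      ‖G t k‖ ≤ |C| * (M * (1 + ∑' k, wt k) * (M * ∑' k, wt k)) := by
  intro t ht k
  have h0 := (hM t ht).nonneg
  have hw := wt_nonneg
  refine (hG t ⟨ht.1, ht.2.trans_lt hT⟩ k).trans ?_
  refine mul_le_mul_of_nonneg_left ?_ (abs_nonneg _)
  exact mul_le_mul (l2_le (hM t ht)) (A1_le (hM t ht)) (A1_nonneg _) (by positivity)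

lemma Qv_gr {M K : ℝ} {V G : Fam} (h : Bd M V) (hG : ∀ k, ‖G k‖ ≤ K) :
    Gr (|ν| * (2 * Real.pi) ^ 2 * M + 2 * Real.pi * (M * (M * ∑' k, wt k)) + K) (Qv ν V G) :=
  ((lp_gr ν h).add (Hf_gr h)).add (G_gr hG)

/-- passing from `Icc 0 T'` to `Ico 0 T` -/
lemma to_Ico {f : ℝ → ℝ} {d t : ℝ} (ht : t ∈ Ico 0 T)
    (h : ∀ T', t < T' → T' < T → HasDerivWithinAt f d (Icc 0 T') t) :
    HasDerivWithinAt f d (Ico 0 T) t := by
  obtain ⟨T', h1, h2⟩ := exists_between ht.2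
  refine (h T' h1 h2).mono_of_mem_nhdsWithin ?_
  exact mem_nhdsWithin.2 ⟨Iio T', isOpen_Iio, h1, fun x hx => ⟨hx.2.1, hx.1.le⟩⟩

lemma ub {K M : ℝ} {A D : Fam} (hA : Gr K A) (hD : Bd M D) (k : Z3) :
    ‖A k‖ * ‖D k‖ ≤ K * (M * wt k) := by
  have hK : 0 ≤ K := by
    have := hA 0
    have h1 : 0 ≤ K * (1 + ‖vec 0‖) := (norm_nonneg _).trans this
    exact nonneg_of_mul_nonneg_left h1 (by positivity)
  calc ‖A k‖ * ‖D k‖ ≤ (K * (1 + ‖vec k‖)) * ‖D k‖ :=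
        mul_le_mul_of_nonneg_right (hA k) (norm_nonneg _)
    _ = K * ((1 + ‖vec k‖) * ‖D k‖) := by ring
    _ ≤ K * (M * wt k) := by
        refine mul_le_mul_of_nonneg_left (wt_le k ?_ hD.nonneg) hK
        calc (1 + ‖vec k‖) ^ 6 * ((1 + ‖vec k‖) * ‖D k‖) = (1 + ‖vec k‖) ^ 7 * ‖D k‖ := by ring
          _ ≤ M := hD k

/-- the energy identity -/
theorem energy (h : FPert s δ C Q β) {V : ℝ → Fam} (hV : FSolL ν β T V) {t : ℝ}
    (ht : t ∈ Ico 0 T) :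
    HasDerivWithinAt (fun τ => pair (V τ) (V τ)) (-(2 * (ν * lpn (V t) (V t)))) (Ico 0 T) t := by
  refine to_Ico ht fun T' hT0 hT' => ?_
  obtain ⟨M, hM⟩ := exB hV hT'
  obtain ⟨G, hG⟩ := exG h hV
  have hIco : ∀ t ∈ Icc 0 T', t ∈ Ico 0 T := fun t ht => ⟨ht.1, lt_of_le_of_lt ht.2 hT'⟩
  have hGb := Gbd (C := C) hT' (fun t ht => (hG t ht).2.2.2) hM
  have ht' : t ∈ Icc 0 T' := ⟨ht.1, hT0.le⟩
  have h1 := en (D := V) (Q := fun t => Qv ν (V t) (G t)) (T' := T')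
    ((wt_sum.mul_left M).mul_left (|ν| * (2 * Real.pi) ^ 2 * M +
      2 * Real.pi * (M * (M * ∑' k, wt k)) + |C| * (M * (1 + ∑' k, wt k) * (M * ∑' k, wt k))))
    (fun t ht => hV.ot t (hIco t ht)) ?_ ?_ (fun t ht => (hM t ht).sq) ht'
  · refine h1.congr_deriv ?_
    rw [rep (hM t ht') (hGb t ht') (bd_w1 (hM t ht'))]
    have h2 : bil (V t) (V t) (V t) = 0 := by
      have := bil_anti (V t) (V t) (V t) (hV.ot t ht)
      linarith
    have h3 : pair (G t) (V t) = 0 := by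
      rw [← (hG t ht).2.2.1 (V t) (hV.ot t ht) (solrap hV ht)]
      have := h.skew (V t) (V t) (V t) (hV.ot t ht) (solrap hV ht) (hV.ot t ht) (solrap hV ht)
        (hV.ot t ht) (solrap hV ht)
      linarith
    rw [h2, h3]
    ring
  · intro Z hZ hZf τ hτ
    have h2 := (hV.eqn Z hZ hZf τ (hIco τ hτ)).mono hIco
    rw [rep (hM τ hτ) (hGb τ hτ) (fin_w1 hZf), ← (hG τ (hIco τ hτ)).2.2.1 Z hZ (fin_rap hZf)]
    exact h2
  · intro τ hτ k
    exact ub (Qv_gr (hM τ hτ) (hGb τ hτ)) (hM τ hτ) k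

lemma ot_sub {V W : Fam} (hV : OT V) (hW : OT W) : OT (fun k => V k - W k) := by
  refine ⟨fun k => ?_, fun k => ?_⟩
  · rw [hV.odd, hW.odd]
    abel
  · rw [inner_sub_right, hV.tan, hW.tan, sub_zero]

lemma rap_sub {V W : Fam} (hV : Rap V) (hW : Rap W) : Rap (fun k => V k - W k) := by
  intro m
  obtain ⟨M, hM⟩ := hV m
  obtain ⟨N, hN⟩ := hW m
  refine ⟨M + N, fun k => ?_⟩
  calc ‖vec k‖ ^ m * ‖V k - W k‖ ≤ ‖vec k‖ ^ m * (‖V k‖ + ‖W k‖) := by
        gcongr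
        exact norm_sub_le _ _
    _ = ‖vec k‖ ^ m * ‖V k‖ + ‖vec k‖ ^ m * ‖W k‖ := by ring
    _ ≤ _ := add_le_add (hM k) (hN k)

lemma bd_sub {V W : Fam} {M N : ℝ} (hV : Bd M V) (hW : Bd N W) :
    Bd (M + N) (fun k => V k - W k) := fun k => by
  calc (1 + ‖vec k‖) ^ 7 * ‖V k - W k‖ ≤ (1 + ‖vec k‖) ^ 7 * (‖V k‖ + ‖W k‖) := by
        gcongr
        exact norm_sub_le _ _
    _ = (1 + ‖vec k‖) ^ 7 * ‖V k‖ + (1 + ‖vec k‖) ^ 7 * ‖W k‖ := by ring
    _ ≤ _ := add_le_add (hV k) (hW k)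

/-- the difference of the perturbations -/
lemma beta_diff (h : FPert s δ C Q β) {V W : Fam} {M N : ℝ} (hV : OT V) (hW : OT W)
    (hV' : Rap V) (hW' : Rap W) (hM : Bd M V) (hN : Bd N W) :
    β V V (fun k => V k - W k) - β W W (fun k => V k - W k) ≤
      |C| * (M * ∑' k, wt k) * ∑' k, ‖V k - W k‖ ^ 2 := by
  have hD := ot_sub hV hW
  have hD' := rap_sub hV' hW'
  have hB := bd_sub hM hN
  set D : Fam := fun k => V k - W k with hDd
  have e0 : (fun k => D k + W k) = V := funext fun k => by simp [hDd]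
  -- linearity in the first argument
  have h1 : β V V D = β D V D + β W V D := by
    have := h.add1 D W V D hD hD' hW hW' hV hV' hD hD'
    rw [e0] at this
    exact this
  -- the first argument `W`
  have h2 : β W V D = β W W D := by
    obtain ⟨G, hG1, hG2, hG3⟩ := h.range W D hW hW' hD hD'
    have h3 := h.skew W V D hW hW' hV hV' hD hD'
    have h4 := h.skew W W D hW hW' hW hW' hD hD'
    have h5 : β W D D = 0 := by
      have := h.skew W D D hW hW' hD hD' hD hD'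
      linarith
    have hGg : Gr (|C| * (l2 W * A1 1 D)) G :=
      G_gr (fun k => G_le h hW hW' hD hD' hG1 hG3 k)
    have h6 : pair G D = pair G V - pair G W := pair_sub_right hGg (bd_w1 hM) (bd_w1 hN)
    rw [hG3 V hV hV'] at h3
    rw [hG3 W hW hW'] at h4
    rw [hG3 D hD hD'] at h5
    rw [h3, h4]
    linarith
  have h3 : β D V D ≤ |C| * (M * ∑' k, wt k) * ∑' k, ‖V k - W k‖ ^ 2 := by
    have h4 := h.low D V D hD hD' hV hV' hD hD'
    have h5 : l2 D * l2 D = ∑' k, ‖V k - W k‖ ^ 2 := by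
      unfold l2
      exact Real.mul_self_sqrt (tsum_nonneg fun _ => by positivity)
    calc β D V D ≤ |β D V D| := le_abs_self _
      _ ≤ C * l2 D * A1 1 V * l2 D := h4
      _ = C * (A1 1 V * (l2 D * l2 D)) := by ring
      _ ≤ |C| * ((M * ∑' k, wt k) * (l2 D * l2 D)) := by
          refine mul_le_mul (le_abs_self C) ?_ ?_ (abs_nonneg _)
          · exact mul_le_mul_of_nonneg_right (A1_le hM) (mul_nonneg (l2_nonneg _) (l2_nonneg _))
          · exact mul_nonneg (A1_nonneg _) (mul_nonneg (l2_nonneg _) (l2_nonneg _))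
      _ = _ := by rw [h5]; ring
  rw [h1, h2]
  linarith

lemma lpn_nonneg (Z : Fam) : 0 ≤ lpn Z Z := by
  unfold lpn
  refine mul_nonneg (by positivity) (tsum_nonneg fun k => ?_)
  exact mul_nonneg (by positivity) real_inner_self_nonneg

lemma lpn_sub {V W Z : Fam} {M N L : ℝ} (hM : Bd M V) (hN : Bd N W) (hL : Bd L Z) :
    lpn V Z - lpn W Z = lpn (fun k => V k - W k) Z := by
  have key : ∀ {V : Fam} {M : ℝ}, Bd M V →
      Summable (fun k => ‖vec k‖ ^ 2 * (inner ℝ (V k) (Z k) : ℝ)) := by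
    intro V M hM
    refine Summable.of_norm_bounded ((hL.sum).mul_left M) (fun k => ?_)
    rw [norm_mul, Real.norm_of_nonneg (by positivity : (0 : ℝ) ≤ ‖vec k‖ ^ 2)]
    have h1 : ‖vec k‖ ^ 2 * ‖V k‖ ≤ M := by
      refine le_trans ?_ (hM k)
      refine mul_le_mul_of_nonneg_right ?_ (norm_nonneg _)
      calc ‖vec k‖ ^ 2 ≤ (1 + ‖vec k‖) ^ 2 := by
            gcongr
            linarith [norm_nonneg (vec k)]
        _ ≤ (1 + ‖vec k‖) ^ 7 :=
            pow_le_pow_right₀ (by linarith [norm_nonneg (vec k)]) (by norm_num)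
    calc ‖vec k‖ ^ 2 * ‖(inner ℝ (V k) (Z k) : ℝ)‖ ≤ ‖vec k‖ ^ 2 * (‖V k‖ * ‖Z k‖) := by
          gcongr
          exact norm_inner_le_norm _ _
      _ = (‖vec k‖ ^ 2 * ‖V k‖) * ‖Z k‖ := by ring
      _ ≤ M * ‖Z k‖ := mul_le_mul_of_nonneg_right h1 (norm_nonneg _)
  unfold lpn
  rw [← mul_sub, ← (key hM).tsum_sub (key hN)]
  congr 1
  exact tsum_congr fun k => by rw [inner_sub_left]; ring

/-- uniqueness -/
theorem uni (h : FPert s δ C Q β) (hν : 0 ≤ ν) {V W : ℝ → Fam} (hV : FSolL ν β T V)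
    (hW : FSolL ν β T W) (h0 : ∀ k, V 0 k = W 0 k) : ∀ t ∈ Ico 0 T, ∀ k, V t k = W t k := by
  intro t₀ ht₀
  obtain ⟨T', hT0, hT'⟩ : ∃ T', t₀ < T' ∧ T' < T := exists_between ht₀.2
  have h0T' : 0 < T' := lt_of_le_of_lt ht₀.1 hT0
  obtain ⟨M, hM⟩ := exB hV hT'
  obtain ⟨N, hN⟩ := exB hW hT'
  obtain ⟨G, hG⟩ := exG h hV
  obtain ⟨H, hH⟩ := exG h hW
  have hIco : ∀ t ∈ Icc 0 T', t ∈ Ico 0 T := fun t ht => ⟨ht.1, lt_of_le_of_lt ht.2 hT'⟩
  have hGb := Gbd (C := C) hT' (fun t ht => (hG t ht).2.2.2) hM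
  have hHb := Gbd (C := C) hT' (fun t ht => (hH t ht).2.2.2) hN
  have hB : ∀ t ∈ Icc 0 T', Bd (M + N) (fun k => V t k - W t k) := fun t ht =>
    bd_sub (hM t ht) (hN t ht)
  have hO : ∀ t ∈ Icc 0 T', OT (fun k => V t k - W t k) := fun t ht =>
    ot_sub (hV.ot t (hIco t ht)) (hW.ot t (hIco t ht))
  have hR : ∀ t ∈ Icc 0 T', Rap (fun k => V t k - W t k) := fun t ht =>
    rap_sub (solrap hV (hIco t ht)) (solrap hW (hIco t ht))
  obtain ⟨K1, hK1⟩ : ∃ K, ∀ t ∈ Icc 0 T', Gr K (Qv ν (V t) (G t)) :=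
    ⟨_, fun t ht => Qv_gr (hM t ht) (hGb t ht)⟩
  obtain ⟨K2, hK2⟩ : ∃ K, ∀ t ∈ Icc 0 T', Gr K (Qv ν (W t) (H t)) :=
    ⟨_, fun t ht => Qv_gr (hN t ht) (hHb t ht)⟩
  obtain ⟨E, hE⟩ : ∃ E : ℝ → ℝ, ∀ t, E t = ∑' k, ‖V t k - W t k‖ ^ 2 := ⟨_, fun t => rfl⟩
  obtain ⟨dE, hdE⟩ : ∃ d : ℝ → ℝ, ∀ t, d t =
      2 * pair (fun k => Qv ν (V t) (G t) k - Qv ν (W t) (H t) k) (fun k => V t k - W t k) :=
    ⟨_, fun t => rfl⟩
  have hder : ∀ t ∈ Icc 0 T', HasDerivWithinAt E (dE t) (Icc 0 T') t := by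
    intro t ht
    have h1 := en (D := fun t k => V t k - W t k)
      (Q := fun t k => Qv ν (V t) (G t) k - Qv ν (W t) (H t) k) (T' := T')
      ((wt_sum.mul_left (M + N)).mul_left (K1 + K2)) hO ?_ ?_ (fun t ht => (hB t ht).sq) ht
    · rw [hdE]
      have h2 : E = fun τ => pair (fun k => V τ k - W τ k) (fun k => V τ k - W τ k) := by
        funext τ
        rw [hE]
        unfold pair
        exact tsum_congr fun k => (real_inner_self_eq_norm_sq _).symm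
      rw [h2]
      exact h1
    · intro Z hZ hZf τ hτ
      have h2 := ((hV.eqn Z hZ hZf τ (hIco τ hτ)).sub (hW.eqn Z hZ hZf τ (hIco τ hτ))).mono hIco
      have hZw := fin_w1 hZf
      have h3 : pair (fun k => Qv ν (V τ) (G τ) k - Qv ν (W τ) (H τ) k) Z =
          -(ν * lpn (V τ) Z) + bil (V τ) (V τ) Z + β (V τ) (V τ) Z -
          (-(ν * lpn (W τ) Z) + bil (W τ) (W τ) Z + β (W τ) (W τ) Z) := by
        rw [pair_sub' (hK1 τ hτ) (hK2 τ hτ) hZw, rep (hM τ hτ) (hGb τ hτ) hZw,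
          rep (hN τ hτ) (hHb τ hτ) hZw, ← (hG τ (hIco τ hτ)).2.2.1 Z hZ (fin_rap hZf),
          ← (hH τ (hIco τ hτ)).2.2.1 Z hZ (fin_rap hZf)]
      rw [h3]
      refine h2.congr (fun x hx => ?_) ?_
      · simp only [Pi.sub_apply]
        exact pair_sub' (bd_gr (hM x hx)) (bd_gr (hN x hx)) hZw
      · simp only [Pi.sub_apply]
        exact pair_sub' (bd_gr (hM τ hτ)) (bd_gr (hN τ hτ)) hZw
    · intro τ hτ k
      exact ub ((hK1 τ hτ).sub (hK2 τ hτ)) (hB τ hτ) k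
  obtain ⟨C', hC'⟩ : ∃ C', C' = 2 * (2 * Real.pi * (M * ∑' k, wt k) + |C| * (M * ∑' k, wt k)) :=
    ⟨_, rfl⟩
  have hineq : ∀ t ∈ Icc 0 T', dE t ≤ C' * E t := by
    intro t ht
    have hw1 := bd_w1 (hB t ht)
    have h1 : pair (fun k => Qv ν (V t) (G t) k - Qv ν (W t) (H t) k) (fun k => V t k - W t k) =
        -(ν * lpn (fun k => V t k - W t k) (fun k => V t k - W t k)) +
        (bil (V t) (V t) (fun k => V t k - W t k) - bil (W t) (W t) (fun k => V t k - W t k)) +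
        (β (V t) (V t) (fun k => V t k - W t k) - β (W t) (W t) (fun k => V t k - W t k)) := by
      rw [pair_sub' (hK1 t ht) (hK2 t ht) hw1, rep (hM t ht) (hGb t ht) hw1,
        rep (hN t ht) (hHb t ht) hw1,
        ← (hG t (hIco t ht)).2.2.1 _ (hO t ht) (hR t ht),
        ← (hH t (hIco t ht)).2.2.1 _ (hO t ht) (hR t ht),
        ← lpn_sub (hM t ht) (hN t ht) (hB t ht)]
      ring
    have h3 := bil_diff (hM t ht) (hN t ht)
    have h4 : bil (W t) (fun k => V t k - W t k) (fun k => V t k - W t k) = 0 := by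
      have := bil_anti (W t) (fun k => V t k - W t k) (fun k => V t k - W t k)
        (hW.ot t (hIco t ht))
      linarith
    have h5 := bil_anti (fun k => V t k - W t k) (V t) (fun k => V t k - W t k) (hO t ht)
    have h6 := bil_energy (hB t ht) (hM t ht)
    have h7 : (∑' k, ‖vec k‖ * ‖V t k‖) * ∑' k, ‖V t k - W t k‖ ^ 2 ≤
        (M * ∑' k, wt k) * ∑' k, ‖V t k - W t k‖ ^ 2 :=
      mul_le_mul_of_nonneg_right (hM t ht).tsum1 (tsum_nonneg (fun _ => by positivity))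
    have h8 : |bil (fun k => V t k - W t k) (fun k => V t k - W t k) (V t)| ≤
        2 * Real.pi * ((M * ∑' k, wt k) * ∑' k, ‖V t k - W t k‖ ^ 2) :=
      h6.trans (mul_le_mul_of_nonneg_left h7 Real.two_pi_pos.le)
    have h9 := neg_abs_le (bil (fun k => V t k - W t k) (fun k => V t k - W t k) (V t))
    have h10 := mul_nonneg hν (lpn_nonneg (fun k => V t k - W t k))
    have h11 := beta_diff h (hV.ot t (hIco t ht)) (hW.ot t (hIco t ht)) (solrap hV (hIco t ht))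
      (solrap hW (hIco t ht)) (hM t ht) (hN t ht)
    rw [hdE, h1, h3, h4, add_zero, h5, hE, hC']
    calc _ ≤ 2 * (2 * Real.pi * ((M * ∑' k, wt k) * ∑' k, ‖V t k - W t k‖ ^ 2) +
          |C| * (M * ∑' k, wt k) * ∑' k, ‖V t k - W t k‖ ^ 2) := by linarith
      _ = _ := by ring
  -- Gronwall
  have hcont : ContinuousOn E (Icc 0 T') := fun t ht => (hder t ht).continuousWithinAt
  have hder' : ∀ t ∈ Ioo 0 T', HasDerivAt E (dE t) t := fun t ht =>
    (hder t ⟨ht.1.le, ht.2.le⟩).hasDerivAt (Icc_mem_nhds ht.1 ht.2)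
  have hanti : AntitoneOn (fun t => E t * Real.exp (-C' * t)) (Icc 0 T') := by
    refine antitoneOn_of_deriv_nonpos (convex_Icc 0 T')
      (hcont.mul (by fun_prop)) ?_ ?_
    · rw [interior_Icc]
      intro t ht
      exact ((hder' t ht).differentiableAt.mul (by fun_prop)).differentiableWithinAt
    · rw [interior_Icc]
      intro t ht
      have h1 : HasDerivAt (fun t : ℝ => Real.exp (-C' * t)) (Real.exp (-C' * t) * (-C' * 1)) t :=
        ((hasDerivAt_id t).const_mul (-C')).exp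
      have h2 := (hder' t ht).mul h1
      have h3 : deriv (fun t => E t * Real.exp (-C' * t)) t = _ := h2.deriv
      rw [h3]
      have h4 := hineq t (Ioo_subset_Icc_self ht)
      have h5 := Real.exp_pos (-C' * t)
      nlinarith
  have hE0 : E 0 = 0 := by
    rw [hE]
    have : ∀ k, ‖V 0 k - W 0 k‖ ^ 2 = 0 := fun k => by
      rw [h0 k, sub_self, norm_zero]
      ring
    rw [tsum_congr this, tsum_zero]
  have ht₀' : t₀ ∈ Icc 0 T' := ⟨ht₀.1, hT0.le⟩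
  have hle := hanti (⟨le_rfl, h0T'.le⟩ : (0:ℝ) ∈ Icc 0 T') ht₀' ht₀.1
  simp only [hE0, zero_mul] at hle
  have hEt : E t₀ ≤ 0 := by
    by_contra hcon
    push Not at hcon
    have := mul_pos hcon (Real.exp_pos (-C' * t₀))
    linarith
  intro k
  have h1 := (hB t₀ ht₀').sq.le_tsum k (fun _ _ => by positivity)
  rw [hE] at hEt
  have h2 : ‖V t₀ k - W t₀ k‖ ^ 2 = 0 := le_antisymm (h1.trans hEt) (by positivity)
  have h3 : ‖V t₀ k - W t₀ k‖ = 0 := (pow_eq_zero_iff two_ne_zero).1 h2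
  exact sub_eq_zero.1 (norm_eq_zero.1 h3)

end

/-- **UNIL** -/
theorem t_UNIL : S_UNIL := by
  intro s δ C ν T Q β hν h
  exact ⟨fun V W hV hW h0 => uni h hν hV hW h0, fun V hV t ht => energy h hV ht⟩

end Pool.Agent.K1H17.UN
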